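import Pool.Agent.H51.QT.Iface

/-!
# QT.VQ : the local ring at a prime `Q` of the ring of all algebraic integers; wild inertia

`inV Q w` : `w` belongs to the localisation at `Q`; `inM Q w` : `w` belongs to its maximal ideal.
`Wild Q g` : `g z / z` is congruent to `1` for all `z`. `wild_pow` : an element of the wild inertia group
has order prime to `l` on every finite Galois extension if `l` is not in `Q`.
-/

set_option autoImplicit false

open scoped Pointwise NumberField
open Matrix IsDedekindDomain Pool.Agent.H71.Patch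

namespace Pool.Agent.H51.QT

variable {F : Type} [Field F] [NumberField F]

/-- `w` is in the localisation of the ring of all algebraic integers at `Q` -/
def inV (Q : Ideal (Zbar F)) (w : AlgebraicClosure F) : Prop :=
  ∃ a s : Zbar F, s ∉ Q ∧ w * (s : AlgebraicClosure F) = a

/-- `w` is in the maximal ideal of the localisation at `Q` -/
def inM (Q : Ideal (Zbar F)) (w : AlgebraicClosure F) : Prop :=
  ∃ a s : Zbar F, s ∉ Q ∧ a ∈ Q ∧ w * (s : AlgebraicClosure F) = a

/-- `g` is in the wild inertia group at `Q` -/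
def Wild (Q : Ideal (Zbar F)) (g : GalK F) : Prop :=
  ∀ z : AlgebraicClosure F, z ≠ 0 → inM Q (g z / z - 1)

variable {Q : Ideal (Zbar F)}

theorem inV_of_int (hQ : Q.IsPrime) (a : Zbar F) : inV Q (a : AlgebraicClosure F) :=
  ⟨a, 1, hQ.one_notMem, by rw [OneMemClass.coe_one, mul_one]⟩

theorem inM_of_mem (hQ : Q.IsPrime) {a : Zbar F} (ha : a ∈ Q) : inM Q (a : AlgebraicClosure F) :=
  ⟨a, 1, hQ.one_notMem, ha, by rw [OneMemClass.coe_one, mul_one]⟩

theorem inM.inV {w : AlgebraicClosure F} (h : inM Q w) : inV Q w := by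
  obtain ⟨a, s, hs, -, e⟩ := h
  exact ⟨a, s, hs, e⟩

theorem inV.add (hQ : Q.IsPrime) {w z : AlgebraicClosure F} (h : inV Q w) (h' : inV Q z) :
    inV Q (w + z) := by
  obtain ⟨a, s, hs, e⟩ := h
  obtain ⟨b, t, ht, e'⟩ := h'
  refine ⟨a * t + b * s, s * t, fun h => ?_, ?_⟩
  · exact (hQ.mem_or_mem h).elim hs ht
  · push_cast
    linear_combination (t : AlgebraicClosure F) * e + (s : AlgebraicClosure F) * e'

theorem inM.add (hQ : Q.IsPrime) {w z : AlgebraicClosure F} (h : inM Q w) (h' : inM Q z) :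
    inM Q (w + z) := by
  obtain ⟨a, s, hs, ha, e⟩ := h
  obtain ⟨b, t, ht, hb, e'⟩ := h'
  refine ⟨a * t + b * s, s * t, fun h => ?_, Q.add_mem (Q.mul_mem_right _ ha)
    (Q.mul_mem_right _ hb), ?_⟩
  · exact (hQ.mem_or_mem h).elim hs ht
  · push_cast
    linear_combination (t : AlgebraicClosure F) * e + (s : AlgebraicClosure F) * e'

theorem inV.mul (hQ : Q.IsPrime) {w z : AlgebraicClosure F} (h : inV Q w) (h' : inV Q z) :
    inV Q (w * z) := by
  obtain ⟨a, s, hs, e⟩ := h
  obtain ⟨b, t, ht, e'⟩ := h'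
  refine ⟨a * b, s * t, fun h => (hQ.mem_or_mem h).elim hs ht, ?_⟩
  push_cast
  rw [← e, ← e']
  ring

theorem inV.mul_inM (hQ : Q.IsPrime) {w z : AlgebraicClosure F} (h : inV Q w) (h' : inM Q z) :
    inM Q (w * z) := by
  obtain ⟨a, s, hs, e⟩ := h
  obtain ⟨b, t, ht, hb, e'⟩ := h'
  refine ⟨a * b, s * t, fun h => (hQ.mem_or_mem h).elim hs ht, Q.mul_mem_left _ hb, ?_⟩
  push_cast
  rw [← e, ← e']
  ring

theorem inM.neg {w : AlgebraicClosure F} (h : inM Q w) : inM Q (-w) := by
  obtain ⟨a, s, hs, ha, e⟩ := h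
  exact ⟨-a, s, hs, Q.neg_mem ha, by push_cast; rw [← e]; ring⟩

theorem inM_int (hQ : Q.IsPrime) {a : Zbar F} (h : inM Q (a : AlgebraicClosure F)) : a ∈ Q := by
  obtain ⟨b, s, hs, hb, e⟩ := h
  have h1 : a * s = b := by
    apply Subtype.ext
    push_cast
    exact e
  have h2 : a * s ∈ Q := h1 ▸ hb
  exact (hQ.mem_or_mem h2).resolve_right hs

/-- `1 + M` is closed under products -/
theorem one_add_mul (hQ : Q.IsPrime) {w z : AlgebraicClosure F} (h : inM Q (w - 1))
    (h' : inM Q (z - 1)) : inM Q (w * z - 1) := by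
  have h1 : inV Q w := by
    have h2 := (h.inV).add hQ (inV_of_int hQ (1 : Zbar F))
    rwa [OneMemClass.coe_one, sub_add_cancel] at h2
  have h3 := (h1.mul_inM hQ h').add hQ h
  have h4 : w * (z - 1) + (w - 1) = w * z - 1 := by ring
  rwa [h4] at h3

theorem Wild.mul (hQ : Q.IsPrime) {g h : GalK F} (hg : Wild Q g) (hh : Wild Q h) :
    Wild Q (g * h) := by
  intro z hz
  have hz' : h z ≠ 0 := by
    rw [Ne, EmbeddingLike.map_eq_zero_iff]
    exact hz
  have h1 := one_add_mul hQ (hg (h z) hz') (hh z hz)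
  have h2 : g (h z) / h z * (h z / z) - 1 = (g * h) z / z - 1 := by
    rw [div_mul_div_cancel₀ hz']
    rfl
  rwa [h2] at h1

theorem Wild.pow (hQ : Q.IsPrime) {g : GalK F} (hg : Wild Q g) (n : ℕ) : Wild Q (g ^ n) := by
  induction n with
  | zero =>
    intro z hz
    have h1 : ((g ^ 0 : GalK F) z) / z - 1 = ((0 : Zbar F) : AlgebraicClosure F) := by
      rw [pow_zero]
      show z / z - 1 = _
      rw [div_self hz, sub_self, ZeroMemClass.coe_zero]
    rw [h1]
    exact inM_of_mem hQ Q.zero_mem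
  | succ n ih =>
    rw [pow_succ]
    exact ih.mul hQ hg

/-- WILD: the order of `g` on `M` is prime to `l` -/
theorem wild_pow (hQ : Q.IsPrime) {g : GalK F} (hg : Wild Q g) {l : ℕ} (hl : l.Prime)
    (hlQ : (l : Zbar F) ∉ Q) (M : IntermediateField F (AlgebraicClosure F))
    [FiniteDimensional F M] [IsGalois F M] :
    ∃ n : ℕ, 0 < n ∧ ¬ l ∣ n ∧ g ^ n ∈ M.fixingSubgroup := by
  have hMn : M.fixingSubgroup.Normal := (InfiniteGalois.normal_iff_isGalois M).mpr inferInstance
  have hMi : M.fixingSubgroup.FiniteIndex := by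
    have hop : IsOpen (M.fixingSubgroup : Set (GalK F)) := M.fixingSubgroup_isOpen
    have hfq : Finite (GalK F ⧸ M.fixingSubgroup) := Subgroup.quotient_finite_of_isOpen _ hop
    exact Subgroup.finiteIndex_of_finite_quotient
  have hex : ∃ n : ℕ, 0 < n ∧ g ^ n ∈ M.fixingSubgroup :=
    ⟨M.fixingSubgroup.index, Nat.pos_of_ne_zero Subgroup.FiniteIndex.index_ne_zero,
      Subgroup.pow_index_mem _ g⟩
  classical
  have hn := Nat.find_spec hex
  have hmin := fun m => Nat.find_min (H := hex) (m := m)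
  obtain ⟨n, hnd⟩ : ∃ n, n = Nat.find hex := ⟨_, rfl⟩
  rw [← hnd] at hn
  simp only [← hnd] at hmin
  refine ⟨n, hn.1, ?_, hn.2⟩
  rintro ⟨m, hm⟩
  have hl1 : 1 < l := hl.one_lt
  have hm0 : 0 < m := by
    rcases Nat.eq_zero_or_pos m with h0 | h0
    · rw [h0, mul_zero] at hm
      exact absurd hm hn.1.ne'
    · exact h0
  have hmn : m < n := by
    rw [hm]
    nlinarith
  have hh : g ^ m ∉ M.fixingSubgroup := fun h => hmin m hmn ⟨hm0, h⟩
  obtain ⟨h, hhd⟩ : ∃ h, h = g ^ m := ⟨_, rfl⟩
  rw [← hhd] at hh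
  have hhl : h ^ l ∈ M.fixingSubgroup := by
    rw [hhd, ← pow_mul, mul_comm, ← hm]
    exact hn.2
  have hw : Wild Q h := by
    rw [hhd]
    exact hg.pow hQ m
  -- the sum of the conjugates on `M`
  let r : M →ₐ[F] M := (AlgEquiv.restrictNormal h M : M ≃ₐ[F] M).toAlgHom
  have hr : ∀ z : M, ((r z : M) : AlgebraicClosure F) = h z := fun z =>
    AlgEquiv.restrictNormal_commutes h M z
  let S : M →ₗ[F] M := ∑ i ∈ Finset.range l, (r.toLinearMap ^ i)
  have hrp : ∀ (i : ℕ) (z : M), (((r.toLinearMap ^ i) z : M) : AlgebraicClosure F) =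
      (h ^ i) (z : AlgebraicClosure F) := by
    intro i
    induction i with
    | zero => intro z; rfl
    | succ i ih =>
      intro z
      rw [pow_succ', pow_succ', Module.End.mul_apply]
      show ((r ((r.toLinearMap ^ i) z) : M) : AlgebraicClosure F) = h ((h ^ i) z)
      rw [hr, ih]
  have hS : ∀ z : M, ((S z : M) : AlgebraicClosure F) =
      ∑ i ∈ Finset.range l, (h ^ i) (z : AlgebraicClosure F) := by
    intro z
    have h1 : S z = ∑ i ∈ Finset.range l, (r.toLinearMap ^ i) z := by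
      rw [LinearMap.sum_apply]
    rw [h1]
    push_cast
    exact Finset.sum_congr rfl fun i _ => hrp i z
  have hnot : ¬ Function.Injective S := by
    intro hinj
    have hsur : Function.Surjective S := LinearMap.surjective_of_injective hinj
    apply hh
    intro y
    obtain ⟨z, hz⟩ := hsur y
    have h1 : (h ^ l) (z : AlgebraicClosure F) = z := hhl z
    rw [← hz]
    show h ((S z : M) : AlgebraicClosure F) = S z
    rw [hS, map_sum]
    have h2 : ∀ i, h ((h ^ i) (z : AlgebraicClosure F)) = (h ^ (i + 1)) (z : AlgebraicClosure F) := by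
      intro i
      rw [pow_succ']
      rfl
    simp only [h2]
    have h3 := Finset.sum_range_succ' (fun i => (h ^ i) (z : AlgebraicClosure F)) l
    have h4 := Finset.sum_range_succ (fun i => (h ^ i) (z : AlgebraicClosure F)) l
    rw [h4, h1] at h3
    have h5 : (h ^ 0) (z : AlgebraicClosure F) = z := rfl
    rw [h5] at h3
    exact (add_right_cancel h3).symm
  obtain ⟨z, hz, hz0⟩ : ∃ z : M, S z = 0 ∧ z ≠ 0 := by
    by_contra hc
    push Not at hc
    exact hnot ((injective_iff_map_eq_zero S).2 hc)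
  have hz1 : (z : AlgebraicClosure F) ≠ 0 := by
    intro h0
    exact hz0 (Subtype.ext h0)
  have h1 : ∑ i ∈ Finset.range l, (h ^ i) (z : AlgebraicClosure F) = 0 := by
    rw [← hS, hz]
    rfl
  have h2 : ∀ m : ℕ, inM Q (∑ i ∈ Finset.range m, ((h ^ i) (z : AlgebraicClosure F) / z - 1)) := by
    intro m
    induction m with
    | zero =>
      rw [Finset.sum_range_zero]
      have := inM_of_mem hQ Q.zero_mem
      rwa [ZeroMemClass.coe_zero] at this
    | succ m ih =>
      rw [Finset.sum_range_succ]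
      exact ih.add hQ (hw.pow hQ m z hz1)
  have h3 := (h2 l).neg
  rw [Finset.sum_sub_distrib, ← Finset.sum_div, h1, zero_div, zero_sub, neg_neg, Finset.sum_const,
    Finset.card_range, nsmul_eq_mul, mul_one] at h3
  apply hlQ
  apply inM_int hQ
  have h4 : (((l : Zbar F)) : AlgebraicClosure F) = (l : AlgebraicClosure F) := by
    push_cast
    rfl
  rw [h4]
  exact h3

end Pool.Agent.H51.QT
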