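import Pool.Agent.H51.QT.Iface
import Pool.Agent.H89.IP.FDefs

/-!
# QT.Base : the conclusions of the modules

`IsPat A ρ` : `ρ` is a representation of the Galois group of `K L` as given by the patching theorem,
already twisted with `eta`. `Loc v Q ρ` : clause (i) for a representation over an algebraic
closure of `ℚ_l`.
-/

set_option autoImplicit false

open scoped Pointwise NumberField
open Matrix IsDedekindDomain Pool.Agent.H71.Patch Pool.Agent.H89.IP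

namespace Pool.Agent.H51.QT

variable {F : Type} [Field F] [NumberField F] {K : IntermediateField F (AlgebraicClosure F)}

/-- the difference between the trace and its expected value at `Q`, with the twist `chi eta⁻¹` -/
noncomputable def dif (𝒦 : Known K) {θ : 𝒦.Eig} (A : Adm K (𝒦.om θ)) {l : ℕ} [Fact l.Prime]
    (j : Qb →+* PadicAlgCl l) (ρ : GG K A.L →* GL (Fin 2) (PadicAlgCl l))
    (χ : GG K A.L →* (PadicAlgCl l)ˣ) (Q : Ideal (Zbar F)) (g : GG K A.L) : PadicAlgCl l :=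
  ((χ g : (PadicAlgCl l)ˣ) : PadicAlgCl l) * j ((A.eta g)⁻¹ : Qbˣ) *
    ((ρ g).val.trace - j (𝒦.tr θ Q g))

/-- the conclusion of the patching theorem for `ρ = ρ0 ⊗ eta` -/
def IsPat (𝒦 : Known K) {θ : 𝒦.Eig} (A : Adm K (𝒦.om θ)) {l : ℕ} [Fact l.Prime]
    (j : Qb →+* PadicAlgCl l) (ρ : GG K A.L →* GL (Fin 2) (PadicAlgCl l)) : Prop :=
  Continuous ρ ∧ Semis ρ ∧
    ∀ χ : GG K A.L →* (PadicAlgCl l)ˣ, Continuous χ → χ ^ 2 = 1 →
    ∀ (u : HeightOneSpectrum (𝓞 F)) (Q : Ideal (Zbar F)), Above u Q → (l : 𝓞 F) ∉ u.asIdeal →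
    ∀ g : GG K A.L, Weil u Q g → ∀ c ∈ A.L.fixingSubgroup, c ∉ K.fixingSubgroup →
    ∀ h : c⁻¹ * (g : GalK F) * c ∈ GG K A.L,
      dif 𝒦 A j ρ χ Q g + dif 𝒦 A j ρ χ (c⁻¹ • Q) ⟨_, h⟩ = 0

/-- clause (i) over the algebraic closure of `ℚ_l` -/
def Good (𝒦 : Known K) (θ : 𝒦.Eig) {l : ℕ} [Fact l.Prime] (j : Qb →+* PadicAlgCl l)
    (σ : K.fixingSubgroup →* GL (Fin 2) (PadicAlgCl l)) : Prop :=
  ∀ v Q, Over K v Q → ¬ 𝒦.lev θ ≤ v.asIdeal → (l : 𝓞 K) ∉ v.asIdeal →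
    (∀ g : K.fixingSubgroup, Acts Q g 1 → σ g = 1) ∧
    ∀ g : K.fixingSubgroup, Acts Q g (nm v) →
      (σ g).val.trace = j (𝒦.T θ v) ∧ (σ g).val.det = j (𝒦.S θ v * (nm v : Qb))

end Pool.Agent.H51.QT
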