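import Pool.Agent.H51.QT.FinRep
import Pool.Agent.H1.QT.Dist
import Pool.Agent.H23.QT.Rat

/-!
# QT.Fin : the main theorem
-/

set_option autoImplicit false

open scoped Pointwise NumberField
open Matrix IsDedekindDomain Pool.Agent.H71.Patch Pool.Agent.H89.IP

namespace Pool.Agent.H51.QT

variable {F : Type} [Field F] [NumberField F] {K : IntermediateField F (AlgebraicClosure F)}

theorem exists_emb (l : ℕ) [Fact l.Prime] : Nonempty (Qb →+* PadicAlgCl l) := by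
  have h : Algebra.IsAlgebraic ℚ Qb := algebraicClosure.isAlgebraic ℚ ℂ
  exact ⟨(IsAlgClosed.lift : Qb →ₐ[ℚ] PadicAlgCl l).toRingHom⟩

/-- clause (i) of Q1 for `K` -/
theorem main (𝒦 : Known K) : Statement K 𝒦 := by
  intro θ
  refine Pool.Agent.H23.QT.rat 𝒦 θ (fun l _ j => rep 𝒦 θ j) fun p hp => ?_
  have : Fact (Nat.Prime 2) := ⟨Nat.prime_two⟩
  obtain ⟨j⟩ := exists_emb 2
  obtain ⟨σ, hc, hg, hi⟩ := rep 𝒦 θ j
  exact Pool.Agent.H1.QT.dist 𝒦 θ j σ hc hg hi p hp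

end Pool.Agent.H51.QT
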