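import Pool.Agent.H51.QT.Face
import Pool.Agent.H51.QT.Fin

/-!
# QT.Bridge : from functions on the Galois group to homomorphisms on subgroups
-/

set_option autoImplicit false

open scoped Pointwise NumberField
open Matrix IsDedekindDomain Pool.Agent.H71.Patch Pool.Agent.H89.IP

namespace Pool.Agent.H51.QT

section abstract

variable {F : Type} [Field F] {E : Type} [Field E] {H : Subgroup (GalK F)}

/-- the homomorphism given by a representation in the sense of `RepOn` -/
noncomputable def repHom [TopologicalSpace E] {n : ℕ} {ρ : GalK F → Matrix (Fin n) (Fin n) E}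
    (h : RepOn H ρ) : H →* GL (Fin n) E :=
  (({ toFun := fun g => ρ g
      map_one' := h.1
      map_mul' := fun a b => h.2.1 a b a.2 b.2 } : H →* Matrix (Fin n) (Fin n) E)).toHomUnits

theorem repHom_val [TopologicalSpace E] {n : ℕ} {ρ : GalK F → Matrix (Fin n) (Fin n) E}
    (h : RepOn H ρ) (g : H) : (repHom h g).val = ρ g := rfl

theorem repHom_cont [TopologicalSpace E] [IsTopologicalRing E] {n : ℕ}
    {ρ : GalK F → Matrix (Fin n) (Fin n) E} (h : RepOn H ρ) : Continuous (repHom h) := by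
  refine cont_gl ?_
  exact continuousOn_iff_continuous_restrict.1 h.2.2

/-- the homomorphism given by a character of finite order -/
noncomputable def finHom {χ : GalK F → Qb} (h : FinOn H χ) : H →* Qbˣ :=
  (({ toFun := fun g => χ g
      map_one' := h.1
      map_mul' := fun a b => h.2.1 a b a.2 b.2 } : H →* Qb)).toHomUnits

theorem finHom_val {χ : GalK F → Qb} (h : FinOn H χ) (g : H) : (finHom h g : Qb) = χ g := rfl

theorem finHom_open {χ : GalK F → Qb} (h : FinOn H χ) : IsOpen ((finHom h).ker : Set H) := by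
  obtain ⟨U, hU, hU1⟩ := h.2.2
  refine Subgroup.isOpen_mono (H₁ := U.subgroupOf H) ?_ ?_
  · intro g hg
    rw [MonoidHom.mem_ker]
    ext
    rw [finHom_val, Units.val_one]
    exact congrArg _ (hU1 g (Subgroup.mem_subgroupOf.1 hg) g.2)
  · exact hU.preimage continuous_subtype_val

open Classical in
/-- extension of a function on a subgroup by `1` -/
noncomputable def ext1 {M : Type} [One M] (f : H → M) (g : GalK F) : M :=
  if h : g ∈ H then f ⟨g, h⟩ else 1

theorem ext1_mem {M : Type} [One M] (f : H → M) {g : GalK F} (h : g ∈ H) :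
    ext1 f g = f ⟨g, h⟩ := dif_pos h

theorem ext1_not {M : Type} [One M] (f : H → M) {g : GalK F} (h : g ∉ H) :
    ext1 f g = 1 := dif_neg h

theorem ext1_one {M : Type} [Monoid M] (f : H → M) (h1 : f 1 = 1) : ext1 f (1 : GalK F) = 1 := by
  rw [ext1_mem f H.one_mem]
  exact h1

theorem ext1_mul {M : Type} [Monoid M] (f : H → M) (hm : ∀ a b, f (a * b) = f a * f b)
    {g h : GalK F} (hg : g ∈ H) (hh : h ∈ H) : ext1 f (g * h) = ext1 f g * ext1 f h := by
  rw [ext1_mem f hg, ext1_mem f hh, ext1_mem f (H.mul_mem hg hh), ← hm]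
  rfl

theorem ext1_cont {M : Type} [One M] [TopologicalSpace M] (f : H → M) (hf : Continuous f) :
    ContinuousOn (ext1 f) (H : Set (GalK F)) := by
  rw [continuousOn_iff_continuous_restrict]
  have h1 : (H : Set (GalK F)).domRestrict (ext1 f) = f := by
    funext g
    exact ext1_mem f g.2
  rw [h1]
  exact hf

/-- a representation on a subgroup as a function -/
theorem repOn_ext1 [TopologicalSpace E] {n : ℕ} (ρ : H →* GL (Fin n) E) (hρ : Continuous ρ) :
    RepOn H (ext1 fun g => (ρ g).val) :=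
  ⟨ext1_one _ (by rw [map_one, Units.val_one]),
    fun _ _ hg hh => ext1_mul _ (fun a b => by rw [map_mul, Units.val_mul]) hg hh,
    ext1_cont _ (Units.continuous_val.comp hρ)⟩

theorem chrOn_ext1 [TopologicalSpace E] (χ : H →* Eˣ) (hχ : Continuous χ) :
    ChrOn H (ext1 fun g => (χ g : E)) :=
  ⟨ext1_one _ (by rw [map_one, Units.val_one]),
    fun _ _ hg hh => ext1_mul _ (fun a b => by rw [map_mul, Units.val_mul]) hg hh,
    ext1_cont _ (Units.continuous_val.comp hχ)⟩

theorem finOn_ext1 (hH : IsOpen (H : Set (GalK F))) (χ : H →* Qbˣ)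
    (hχ : IsOpen (χ.ker : Set H)) : FinOn H (ext1 fun g => (χ g : Qb)) := by
  refine ⟨ext1_one _ (by rw [map_one, Units.val_one]),
    fun _ _ hg hh => ext1_mul _ (fun a b => by rw [map_mul, Units.val_mul]) hg hh,
    χ.ker.map H.subtype, ?_, ?_⟩
  · have h1 := hH.isOpenMap_subtype_val _ hχ
    have h2 : ((χ.ker.map H.subtype : Subgroup (GalK F)) : Set (GalK F)) =
        Subtype.val '' (χ.ker : Set H) := Subgroup.coe_map _ _
    rw [h2]
    exact h1
  · rintro g ⟨x, hx, rfl⟩ hg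
    rw [ext1_mem _ hg]
    have h1 : χ x = 1 := hx
    show ((χ ⟨H.subtype x, hg⟩ : Qbˣ) : Qb) = 1
    have h2 : (⟨H.subtype x, hg⟩ : H) = x := rfl
    rw [h2, h1, Units.val_one]

/-- the homomorphism given by a character -/
noncomputable def chrHom [TopologicalSpace E] {χ : GalK F → E} (h : ChrOn H χ) : H →* Eˣ :=
  (({ toFun := fun g => χ g
      map_one' := h.1
      map_mul' := fun a b => h.2.1 a b a.2 b.2 } : H →* E)).toHomUnits

end abstract

variable {F : Type} [Field F] [NumberField F] {K : IntermediateField F (AlgebraicClosure F)}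

theorem sup_eq (K L : IntermediateField F (AlgebraicClosure F)) :
    (K ⊔ L).fixingSubgroup = GG K L := IntermediateField.fixingSubgroup_sup

theorem eta_exists (𝒟 : Facts K) (θ : 𝒟.Eig) (L : IntermediateField F (AlgebraicClosure F))
    (h1 : Module.finrank F L = 2) (h2 : NumberField.IsTotallyReal L) (h3 : L ≠ K)
    (h4 : ∀ w ∈ 𝒟.odd θ, ∀ Q, Over K w Q →
      ∃ g ∈ K.fixingSubgroup, g ∈ Dec Q ∧ g ∉ L.fixingSubgroup)
    (hom : FinOn K.fixingSubgroup (𝒟.om θ)) :
    ∃ eta : GG K L →* Qbˣ, IsOpen (eta.ker : Set (GG K L)) ∧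
      ∀ g : GG K L, eta g ^ 2 = finHom hom ⟨g, g.2.1⟩ := by
  obtain ⟨eta, he, he2⟩ := 𝒟.sqrt θ L h1 h2 h3 fun w hw Q hQ => by
    obtain ⟨g, hg, hgQ, hgL⟩ := h4 w hw Q hQ
    exact ⟨g, hg, hgQ, hgL⟩
  rw [sup_eq] at he he2
  refine ⟨finHom he, finHom_open he, fun g => ?_⟩
  ext
  rw [Units.val_pow_eq_pow_val, finHom_val, finHom_val]
  exact congrArg _ (he2 g g.2)

/-- the admissible base change -/
noncomputable def toBase {om : GalK F → Qb} (hom : FinOn K.fixingSubgroup om)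
    (hK : FiniteDimensional F K) (A : Adm K (finHom hom)) : Base K om where
  L := A.L
  deg := A.deg
  real := A.real
  ne := A.ne
  eta := ext1 fun g => (A.eta g : Qb)
  eta_fin := by
    have hL : FiniteDimensional F A.L :=
      FiniteDimensional.of_finrank_pos (by rw [A.deg]; norm_num)
    rw [sup_eq]
    exact finOn_ext1 (K.fixingSubgroup_isOpen.inter A.L.fixingSubgroup_isOpen) A.eta A.eta_open
  eta_sq := by
    intro g hg
    rw [sup_eq] at hg
    rw [ext1_mem _ hg]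
    have h1 := A.eta_sq ⟨g, hg⟩
    have h2 := congrArg (fun x : Qbˣ => (x : Qb)) h1
    simp only [Units.val_pow_eq_pow_val] at h2
    rw [h2]
    rfl

theorem gal_exists (𝒟 : Facts K) (θ : 𝒟.Eig) (hom : FinOn K.fixingSubgroup (𝒟.om θ))
    (A : Adm K (finHom hom)) (l : ℕ) [Fact l.Prime] (j : Qb →+* PadicAlgCl l)
    (χ : GG K A.L →* (PadicAlgCl l)ˣ) (hχ : Continuous χ) (hχ2 : χ ^ 2 = 1) :
    ∃ R : A.L.fixingSubgroup →* GL (Fin 4) (PadicAlgCl l), Continuous R ∧
      Ind A (𝒟.tr θ) j χ R := by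
  have hK : FiniteDimensional F K :=
    FiniteDimensional.of_finrank_pos (by rw [𝒟.deg]; norm_num)
  have e : (K ⊔ A.L).fixingSubgroup = GG K A.L := sup_eq K A.L
  obtain ⟨R, hR, hR2⟩ := 𝒟.gsp4 θ (toBase hom hK A) l j (ext1 fun g => (χ g : PadicAlgCl l))
    (by
      show ChrOn (K ⊔ A.L).fixingSubgroup _
      rw [e]
      exact chrOn_ext1 χ hχ)
    (by
      show ∀ g ∈ (K ⊔ A.L).fixingSubgroup, _
      rw [e]
      intro g hg
      rw [ext1_mem _ hg]
      have h1 : χ ⟨g, hg⟩ ^ 2 = 1 := DFunLike.congr_fun hχ2 ⟨g, hg⟩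
      have h2 := congrArg (fun x : (PadicAlgCl l)ˣ => (x : PadicAlgCl l)) h1
      simpa using h2)
  have hR' : RepOn A.L.fixingSubgroup R := hR
  refine ⟨repHom hR', repHom_cont hR', ?_⟩
  intro u Q hQ hl g hg
  obtain ⟨t1, t2⟩ := hR2 u Q hQ hl g g.2 hg
  refine ⟨fun hgK => t1 hgK, fun c h₁ h₂ hcL hcK => ?_⟩
  have h3 := t2 h₁.1 c hcL hcK
  have h4 : ∀ (Q : Ideal (Zbar F)) (x : GalK F) (hx : x ∈ GG K A.L),
      twist (toBase hom hK A).eta (𝒟.tr θ) j (ext1 fun g => (χ g : PadicAlgCl l)) Q x =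
        tw K A (𝒟.tr θ) j χ Q ⟨x, hx⟩ := by
    intro Q x hx
    have h5 : (toBase hom hK A).eta x = (A.eta ⟨x, hx⟩ : Qb) := by
      show ext1 (fun g : GG K A.L => (A.eta g : Qb)) x = _
      exact ext1_mem _ hx
    rw [twist, tw, ext1_mem _ hx, h5, Units.val_inv_eq_inv_val]
  rw [h4 Q g h₁, h4 _ _ h₂] at h3
  exact h3

/-- the interface of the modules from the one of the statement -/
noncomputable def toKnown (𝒟 : Facts K) : Known K where
  Eig := 𝒟.Eig
  lev := 𝒟.lev
  T := 𝒟.T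
  S := 𝒟.S
  om := fun θ => finHom (𝒟.central θ).1
  odd := 𝒟.odd
  tr := 𝒟.tr
  base := 𝒟.real
  deg := 𝒟.deg
  lev_ne := 𝒟.lev_ne
  coef := 𝒟.coef
  central := ⟨fun θ => finHom_open (𝒟.central θ).1, fun θ v Q hv hlev g hg => (𝒟.central θ).2.1 v Q hv hlev g g.2 hg,
    fun θ w hw => (𝒟.central θ).2.2 w hw⟩
  tate := fun θ L h1 h2 h3 h4 => eta_exists 𝒟 θ L h1 h2 h3 h4 (𝒟.central θ).1
  tr_conj := 𝒟.conj
  tr_good := 𝒟.frob
  irr := by
    intro θ l _ j
    rintro ⟨ψ₁, ψ₂, h1, h2, h3⟩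
    refine 𝒟.notSum θ l j (ext1 fun g => (ψ₁ g : PadicAlgCl l))
      (ext1 fun g => (ψ₂ g : PadicAlgCl l)) (chrOn_ext1 ψ₁ h1) (chrOn_ext1 ψ₂ h2) ?_
    intro v Q hv hlev hl g hg hga
    rw [ext1_mem _ hg, ext1_mem _ hg]
    exact h3 v Q hv hlev hl ⟨g, hg⟩ hga
  gal := fun θ A l _ j χ hχ hχ2 => gal_exists 𝒟 θ (𝒟.central θ).1 A l j χ hχ hχ2

theorem final (𝒟 : Facts K) : Conclusion 𝒟 := by
  intro θ
  obtain ⟨E, hEf, hE, hl⟩ := main (toKnown 𝒟) θ
  refine ⟨E, hEf, hE, ?_⟩
  intro l _ j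
  obtain ⟨ρ, hρc, -, hρ⟩ := hl l j
  -- an extension of `j`
  obtain ⟨j', hj'⟩ : ∃ j' : Qb →+* PadicAlgCl l, ∀ x : E, j' x = j x :=
    Pool.Agent.H23.QT.exists_ext E l j
  let ι : Comp E l j →+* PadicAlgCl l := algebraMap _ _
  let f : K.fixingSubgroup →* Matrix (Fin 2) (Fin 2) (PadicAlgCl l) :=
    { toFun := fun g => (ρ g).val.map ι
      map_one' := by
        rw [map_one, Units.val_one, Matrix.map_one ι (map_zero ι) (map_one ι)]
      map_mul' := fun a b => by rw [map_mul, Units.val_mul, Matrix.map_mul] }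
  have hf : ∀ g, f g = (ρ g).val.map ι := fun _ => rfl
  have hfc : Continuous f := by
    have h1 : Continuous fun g => (ρ g).val := Units.continuous_val.comp hρc
    have h2 : Continuous fun g => (ρ g).val.map ι := h1.matrix_map continuous_subtype_val
    exact h2
  let σ : K.fixingSubgroup →* GL (Fin 2) (PadicAlgCl l) := f.toHomUnits
  have hσc : Continuous σ := cont_gl hfc
  have hσv : ∀ g, (σ g).val = (ρ g).val.map ι := fun _ => rfl
  have hcp : ∀ (v : HeightOneSpectrum (𝓞 K)) (hv : ¬ 𝒟.lev θ ≤ v.asIdeal),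
      (l : 𝓞 K) ∉ v.asIdeal → ∀ Q, Over K v Q → ∀ g : K.fixingSubgroup, Acts Q g (nm v) →
      (σ g).val.charpoly = quadPoly (j ⟨𝒟.T θ v, (hE v hv).1⟩)
        (j ⟨𝒟.S θ v, (hE v hv).2⟩ * (nm v : PadicAlgCl l)) := by
    intro v hv hlv Q hQ g hg
    have h1 := (hρ v hv hlv Q hQ).2 g hg
    rw [hσv, Matrix.charpoly_map, h1, quadPoly]
    simp only [Polynomial.map_add, Polynomial.map_sub, Polynomial.map_mul, Polynomial.map_pow,
      Polynomial.map_X, Polynomial.map_C]
    rw [map_mul, map_natCast]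
    rfl
  have hgood : Good (toKnown 𝒟) θ j' σ := by
    intro v Q hv hlev hlv
    refine ⟨fun g hg => ?_, fun g hg => ?_⟩
    · have h1 := (hρ v hlev hlv Q hv).1 g hg
      ext1
      rw [hσv, h1, Units.val_one, Matrix.map_one ι (map_zero ι) (map_one ι), Units.val_one]
    · have h1 := hcp v hlev hlv Q hv g hg
      rw [Matrix.charpoly_fin_two, quadPoly] at h1
      have h2 := congrArg (fun p => p.coeff 1) h1
      have h3 := congrArg (fun p => p.coeff 0) h1
      simp [Polynomial.coeff_X, Polynomial.coeff_C] at h2 h3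
      refine ⟨?_, ?_⟩
      · rw [h2, ← hj']
        rfl
      · rw [h3, map_mul, map_natCast, ← hj']
        rfl
  have hirr : Irred σ := irr (toKnown 𝒟) θ j' σ hσc hgood
  refine ⟨ext1 fun g => (σ g).val, ?_, repOn_ext1 σ hσc, ?_, ?_⟩
  · intro g i k
    by_cases hg : g ∈ K.fixingSubgroup
    · rw [ext1_mem _ hg, hσv, Matrix.map_apply]
      exact ((ρ ⟨g, hg⟩).val i k).2
    · rw [ext1_not _ hg, Matrix.one_apply]
      split_ifs
      · exact one_mem _
      · exact zero_mem _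
  · refine ⟨two_ne_zero, fun W hW => hirr.2 W fun g x hx => ?_⟩
    have h1 := hW g g.2 x hx
    rw [ext1_mem _ g.2] at h1
    exact h1
  · intro v hv hlv
    refine ⟨⟨𝒟.T θ v, (hE v hv).1⟩, ⟨𝒟.S θ v, (hE v hv).2⟩, rfl, rfl, fun Q hQ => ⟨?_, ?_⟩⟩
    · intro g hg hga
      rw [ext1_mem _ hg, (hgood v Q hQ hv hlv).1 ⟨g, hg⟩ hga, Units.val_one]
    · intro g hg hga
      rw [ext1_mem _ hg]
      exact hcp v hv hlv Q hQ ⟨g, hg⟩ hga

end Pool.Agent.H51.QT
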