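import Pool.Agent.H71.Patch.Defs

/-!
# Places of number fields inside one algebraic closure

`F` is a number field, `Gam = GalK F` its absolute Galois group; the absolute Galois group of a finite
extension `E` of `F` in `Fbar` is the subgroup `E.fixingSubgroup`. Places are given by the prime ideals
`Q` of the ring `Zbar F` of all algebraic integers.
-/

set_option autoImplicit false

open scoped Pointwise NumberField
open Matrix IsDedekindDomain Pool.Agent.H71.Patch

namespace Pool.Agent.H51.QT

/-- The field of algebraic numbers in `ℂ`. -/
abbrev Qb : Type := algebraicClosure ℚ ℂ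

instance : IsAlgClosed Qb :=
  haveI : IsAlgClosure ℚ Qb := algebraicClosure.isAlgClosure ℚ ℂ
  IsAlgClosure.isAlgClosed ℚ

variable {F : Type} [Field F] [NumberField F]

/-- The inclusion of the integers of `E` in the ring of all algebraic integers. -/
noncomputable def incl (E : IntermediateField F (AlgebraicClosure F)) : 𝓞 E →+* Zbar F where
  toFun x := ⟨((x : E) : AlgebraicClosure F), by
    have h1 : IsIntegral ℤ (x : E) := x.isIntegral_coe
    have h2 : IsIntegral ℤ ((x : E) : AlgebraicClosure F) := h1.map E.val.toIntAlgHom
    exact h2.tower_top⟩
  map_one' := rfl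
  map_mul' _ _ := rfl
  map_zero' := rfl
  map_add' _ _ := rfl

/-- The prime of `E` below the prime `Q` of the ring of all algebraic integers. -/
noncomputable def below (E : IntermediateField F (AlgebraicClosure F)) (Q : Ideal (Zbar F)) :
    Ideal (𝓞 E) := Q.comap (incl E)

/-- `Q` is a prime of the ring of all algebraic integers above the prime `v` of `E`. -/
def Over (E : IntermediateField F (AlgebraicClosure F)) (v : HeightOneSpectrum (𝓞 E))
    (Q : Ideal (Zbar F)) : Prop :=
  Q.IsPrime ∧ below E Q = v.asIdeal

/-- The number of elements of the residue field. -/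
noncomputable def nm {R : Type} [CommRing R] (v : HeightOneSpectrum R) : ℕ :=
  Nat.card (R ⧸ v.asIdeal)

/-- `g` acts on the residue field of `Q` by raising to the power `n`. For `n` the number of
elements of the residue field of `E` and `g` in the Galois group of `E`, `g` is an (arithmetic)
Frobenius element of `E` at `Q`; for `n = 1`, `g` is in the inertia group of `Q`. -/
def Acts (Q : Ideal (Zbar F)) (g : GalK F) (n : ℕ) : Prop :=
  ∀ x : Zbar F, g • x - x ^ n ∈ Q

/-- `g` belongs to the Weil group of the completion of `F` at `Q`. -/
def Weil (u : HeightOneSpectrum (𝓞 F)) (Q : Ideal (Zbar F)) (g : GalK F) : Prop :=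
  ∃ k : ℕ, Acts Q g (nm u ^ k) ∨ Acts Q g⁻¹ (nm u ^ k)

/-- The completion `F_(theta,lambda)` of the number field `E` at the prime `lambda` induced by the
embedding `j` of `E` in the algebraic closure of `ℚ_l`. (All pairs of a prime `lambda` of `E` above
`l` and an embedding of the completion arise in this way.) -/
noncomputable abbrev Comp (E : IntermediateField ℚ Qb) (l : ℕ) [Fact l.Prime]
    (j : E →+* PadicAlgCl l) : IntermediateField ℚ_[l] (PadicAlgCl l) :=
  IntermediateField.adjoin ℚ_[l] (Set.range j)

end Pool.Agent.H51.QT
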