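import Pool.Agent.H51.QT.Core

/-!
# Weight two eigenclasses over quadratic extensions of totally real fields: the published facts

`F` is a totally real number field, `K` a quadratic extension of `F` in an algebraic closure `Fbar`,
`GalK F` the absolute Galois group of `F`. All eigenvalues are algebraic numbers (elements of `Qb`).
Representations of a subgroup `H` of the Galois group are functions on the Galois group which are
multiplicative and continuous on `H`; their values outside of `H` are irrelevant.
-/

set_option autoImplicit false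

open scoped Pointwise NumberField
open Matrix IsDedekindDomain Pool.Agent.H71.Patch

namespace Pool.Agent.H51.QT

section

variable {F : Type} [Field F]

/-- `ρ` is a continuous representation of the group `H`. -/
def RepOn {E : Type} [Field E] [TopologicalSpace E] {n : ℕ} (H : Subgroup (GalK F))
    (ρ : GalK F → Matrix (Fin n) (Fin n) E) : Prop :=
  ρ 1 = 1 ∧ (∀ g h, g ∈ H → h ∈ H → ρ (g * h) = ρ g * ρ h) ∧ ContinuousOn ρ H

/-- `χ` is a continuous character of the group `H`. -/
def ChrOn {E : Type} [Field E] [TopologicalSpace E] (H : Subgroup (GalK F)) (χ : GalK F → E) :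
    Prop :=
  χ 1 = 1 ∧ (∀ g h, g ∈ H → h ∈ H → χ (g * h) = χ g * χ h) ∧ ContinuousOn χ H

/-- `χ` is a continuous character of finite order of the group `H`. -/
def FinOn (H : Subgroup (GalK F)) (χ : GalK F → Qb) : Prop :=
  χ 1 = 1 ∧ (∀ g h, g ∈ H → h ∈ H → χ (g * h) = χ g * χ h) ∧
    ∃ U : Subgroup (GalK F), IsOpen (U : Set (GalK F)) ∧ ∀ g ∈ U, g ∈ H → χ g = 1

/-- The polynomial `X ^ 2 - a X + b`. -/
noncomputable def quadPoly {E : Type} [Field E] (a b : E) : Polynomial E :=
  Polynomial.X ^ 2 - Polynomial.C a * Polynomial.X + Polynomial.C b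

/-- The representation `ρ` of the group `H` is irreducible. -/
def IrrOn {E : Type} [Field E] {n : ℕ} (H : Subgroup (GalK F))
    (ρ : GalK F → Matrix (Fin n) (Fin n) E) : Prop :=
  n ≠ 0 ∧ ∀ W : Submodule E (Fin n → E), (∀ g ∈ H, ∀ x ∈ W, ρ g *ᵥ x ∈ W) → W = ⊥ ∨ W = ⊤

end

variable {F : Type} [Field F] [NumberField F] (K : IntermediateField F (AlgebraicClosure F))

/-- An admissible base change for the character `om` of finite order of the Galois group of `K`:
a totally real quadratic extension `L ≠ K` of `F` and a character `eta` of finite order of the Galois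
group of `K L` with `eta ^ 2 = om`. -/
structure Base (om : GalK F → Qb) where
  L : IntermediateField F (AlgebraicClosure F)
  deg : Module.finrank F L = 2
  real : NumberField.IsTotallyReal L
  ne : L ≠ K
  eta : GalK F → Qb
  eta_fin : FinOn (K ⊔ L).fixingSubgroup eta
  eta_sq : ∀ g ∈ (K ⊔ L).fixingSubgroup, eta g ^ 2 = om g

/-- The data attached to the weight two eigenclasses of `GL_2` over `K`. -/
structure Classes where
  /-- pairs of a non zero ideal `n` of `𝓞 K` and a nontrivial character `theta` of the Hecke algebra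
  `T_1(n)` acting on `H^d(Y_1(n), ℂ)`. They are the systems of eigenvalues of the cuspidal
  automorphic representations `pi` of `GL_2` over `K` of weight two (trivial infinitesimal character,
  central character `om` of finite order), of level dividing `n` (MATSUSHIMA, HARDER, FRANKE: the
  Eisenstein and the residual part of this cohomology give trivial characters only). -/
  Eig : Type
  /-- the ideal `n` -/
  lev : Eig → Ideal (𝓞 K)
  /-- the eigenvalue `a_v = theta (T_v)`, `v` prime to `n` -/
  T : Eig → HeightOneSpectrum (𝓞 K) → Qb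
  /-- the eigenvalue `b_v = theta (S_v)`, `v` prime to `n` -/
  S : Eig → HeightOneSpectrum (𝓞 K) → Qb
  /-- the central character as a character of the Galois group of `K` (class field theory) -/
  om : Eig → GalK F → Qb
  /-- the finite primes `w` of `K` with `om_w (-1) = -1` -/
  odd : Eig → Set (HeightOneSpectrum (𝓞 K))
  /-- `tr theta Q` is the trace of the (semisimplified) Langlands parameter of `pi_v` on the Weil group
  of `K_v` in the decomposition group of `Q`, `v` the prime of `K` below `Q` (LANGLANDS, HENNIART,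
  KUTZKO, normalised so that the Frobenius polynomial at good places is that of `FrobGood`), extended
  by `0`. -/
  tr : Eig → Ideal (Zbar F) → GalK F → Qb

variable {K}

/-- The eigenvalues of `T_v` and `S_v`, `v` prime to `n`, generate a number field. -/
def CoefField (𝒟 : Classes K) : Prop :=
  ∀ θ, ∃ E : IntermediateField ℚ Qb, FiniteDimensional ℚ E ∧
    ∀ v, ¬ 𝒟.lev θ ≤ v.asIdeal → 𝒟.T θ v ∈ E ∧ 𝒟.S θ v ∈ E

/-- The central character has finite order and the value `theta (S_v)` at Frobenius elements at the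
primes prime to `n`; the primes with `om_w (-1) = -1` divide `n`. -/
def CentralChar (𝒟 : Classes K) : Prop :=
  ∀ θ, FinOn K.fixingSubgroup (𝒟.om θ) ∧
    (∀ v Q, Over K v Q → ¬ 𝒟.lev θ ≤ v.asIdeal → ∀ g ∈ K.fixingSubgroup,
      Acts Q g (nm v) → 𝒟.om θ g = 𝒟.S θ v) ∧
    ∀ w ∈ 𝒟.odd θ, 𝒟.lev θ ≤ w.asIdeal

/-- CLASS FIELD THEORY (GRUNWALD-WANG for the exponent two, TATE): a character of finite order of the
idele classes is a square if and only if all its components are trivial at `-1`. The components of
`om` at infinity are trivial, so `om` becomes a square over `K L` as soon as `K L / K` does not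
split at the primes in `odd theta`, that is if the decomposition groups at these primes are not
contained in the Galois group of `L`. -/
def SquareRoot (𝒟 : Classes K) : Prop :=
  ∀ θ (L : IntermediateField F (AlgebraicClosure F)), Module.finrank F L = 2 →
    NumberField.IsTotallyReal L → L ≠ K →
    (∀ w ∈ 𝒟.odd θ, ∀ Q, Over K w Q → ∃ g ∈ K.fixingSubgroup, g • Q = Q ∧ g ∉ L.fixingSubgroup) →
    ∃ eta : GalK F → Qb, FinOn (K ⊔ L).fixingSubgroup eta ∧
      ∀ g ∈ (K ⊔ L).fixingSubgroup, eta g ^ 2 = 𝒟.om θ g

/-- The local parameters at the different `Q` over one prime of `K` are conjugate. -/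
def Conjugate (𝒟 : Classes K) : Prop :=
  ∀ θ Q g, ∀ h ∈ K.fixingSubgroup, 𝒟.tr θ (h • Q) (h * g * h⁻¹) = 𝒟.tr θ Q g

/-- Unramified places: `x` and `y` are the roots of the Frobenius polynomial; JACQUET-SHALIKA: their
quotient has absolute value strictly between `1 / Nv` and `Nv`. -/
def FrobGood (𝒟 : Classes K) : Prop :=
  ∀ θ v, ¬ 𝒟.lev θ ≤ v.asIdeal → ∃ x y : Qb, x ≠ 0 ∧ y ≠ 0 ∧ x + y = 𝒟.T θ v ∧
    x * y = 𝒟.S θ v * (nm v : Qb) ∧
    (∀ m : ℕ, 0 < m → x ^ m ≠ ((nm v : Qb) * y) ^ m ∧ y ^ m ≠ ((nm v : Qb) * x) ^ m) ∧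
    ∀ Q, Over K v Q → ∀ g ∈ K.fixingSubgroup, ∀ k : ℕ, Acts Q g (nm v ^ k) →
      𝒟.tr θ Q g = x ^ k + y ^ k ∧ 𝒟.tr θ Q g⁻¹ = x⁻¹ ^ k + y⁻¹ ^ k

/-- A cuspidal representation does not have the eigenvalues of a sum of two `l`-adic characters:
the sum would be rational over a number field in the sense of SERRE, so locally algebraic
(WALDSCHMIDT, HENNIART 1982), that is given by two algebraic Hecke characters, against
JACQUET-SHALIKA (isobaric representations are determined by almost all components). -/
def NotSum (𝒟 : Classes K) : Prop :=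
  ∀ θ (l : ℕ) [Fact l.Prime] (j : Qb →+* PadicAlgCl l) (ψ₁ ψ₂ : GalK F → PadicAlgCl l),
    ChrOn K.fixingSubgroup ψ₁ → ChrOn K.fixingSubgroup ψ₂ →
    ¬ ∀ v Q, Over K v Q → ¬ 𝒟.lev θ ≤ v.asIdeal → (l : 𝓞 K) ∉ v.asIdeal →
        ∀ g ∈ K.fixingSubgroup, Acts Q g (nm v) →
        j (𝒟.T θ v) = ψ₁ g + ψ₂ g ∧ j (𝒟.S θ v * (nm v : Qb)) = ψ₁ g * ψ₂ g

/-- The trace at `Q` of the Langlands parameter (trace function `t`) twisted by `eta⁻¹ chi`. -/
noncomputable def twist (eta : GalK F → Qb) (t : Ideal (Zbar F) → GalK F → Qb) {l : ℕ}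
    [Fact l.Prime] (j : Qb →+* PadicAlgCl l) (χ : GalK F → PadicAlgCl l) (Q : Ideal (Zbar F))
    (g : GalK F) : PadicAlgCl l :=
  χ g * j (eta g)⁻¹ * j (t Q g)

/-- The representation `R` of the Galois group of `L` is induced from the Galois group of `K L`, with
the local parameters of `pi` twisted by `eta⁻¹ chi`, at all places of `L` prime to `l`. -/
def Induced {om : GalK F → Qb} (A : Base K om) (t : Ideal (Zbar F) → GalK F → Qb) {l : ℕ}
    [Fact l.Prime] (j : Qb →+* PadicAlgCl l) (χ : GalK F → PadicAlgCl l)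
    (R : GalK F → Matrix (Fin 4) (Fin 4) (PadicAlgCl l)) : Prop :=
  ∀ (u : HeightOneSpectrum (𝓞 F)) (Q : Ideal (Zbar F)), Above u Q → (l : 𝓞 F) ∉ u.asIdeal →
    ∀ g ∈ A.L.fixingSubgroup, Weil u Q g →
      (g ∉ K.fixingSubgroup → (R g).trace = 0) ∧
      (g ∈ K.fixingSubgroup → ∀ c ∈ A.L.fixingSubgroup, c ∉ K.fixingSubgroup →
        (R g).trace = twist A.eta t j χ Q g + twist A.eta t j χ (c⁻¹ • Q) (c⁻¹ * g * c))

/-- THE GALOIS REPRESENTATIONS. Let `pi'` be the base change of `pi` to `K L` twisted by
`eta⁻¹ chi`; its central character is trivial. Its automorphic induction to `GL_4` over the totally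
real field `L` (ARTHUR-CLOZEL) is of symplectic type with trivial multiplier, with parameter
`D_2 + D_2` at all infinite places; it comes from a cuspidal representation of `PGSp_4 = SO_5` over
`L` of weight two, a holomorphic limit of discrete series at all infinite places (GAN-TAKEDA,
ARTHUR, GEE-TAIBI), which has Galois representations, compatible with the local Langlands
correspondence up to semisimplification at all places prime to `l` (MOK 2014;
BOXER-CALEGARI-GEE-PILLONI 2.7). If the automorphic induction is not cuspidal, `pi'` is the base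
change of a Hilbert modular form of parallel weight two (CARAYOL, TAYLOR, BLASIUS-ROGAWSKI) or a
sum of two algebraic Hecke characters of `K L`. -/
def GSp4 (𝒟 : Classes K) : Prop :=
  ∀ θ (A : Base K (𝒟.om θ)) (l : ℕ) [Fact l.Prime] (j : Qb →+* PadicAlgCl l)
    (χ : GalK F → PadicAlgCl l), ChrOn (K ⊔ A.L).fixingSubgroup χ →
    (∀ g ∈ (K ⊔ A.L).fixingSubgroup, χ g ^ 2 = 1) →
    ∃ R : GalK F → Matrix (Fin 4) (Fin 4) (PadicAlgCl l), RepOn A.L.fixingSubgroup R ∧
      Induced A (𝒟.tr θ) j χ R

variable (K)

/-- THE PUBLISHED FACTS for the quadratic extension `K` of the totally real field `F`. -/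
structure Facts extends Classes K where
  /-- `F` is totally real. -/
  real : NumberField.IsTotallyReal F
  /-- `K` is a quadratic extension of `F` (of any signature). -/
  deg : Module.finrank F K = 2
  lev_ne : ∀ θ, lev θ ≠ ⊥
  coef : CoefField toClasses
  central : CentralChar toClasses
  sqrt : SquareRoot toClasses
  conj : Conjugate toClasses
  frob : FrobGood toClasses
  notSum : NotSum toClasses
  gsp4 : GSp4 toClasses

variable {K}

/-- Clause (i) for the representation `ρ` over the algebraic closure of `ℚ_l` (with the embedding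
`j`), the ideal `n` and the eigenvalues `a`, `b`: for every prime `v` of `K` not dividing `n l`, `ρ` is
unramified at `v` and all Frobenius elements have characteristic polynomial
`X ^ 2 - a_v X + b_v Nv`. -/
def ClauseOne (n : Ideal (𝓞 K)) (a b : HeightOneSpectrum (𝓞 K) → Qb) {E : IntermediateField ℚ Qb}
    (l : ℕ) [Fact l.Prime] (j : E →+* PadicAlgCl l)
    (ρ : GalK F → Matrix (Fin 2) (Fin 2) (PadicAlgCl l)) : Prop :=
  ∀ v : HeightOneSpectrum (𝓞 K), ¬ n ≤ v.asIdeal → (l : 𝓞 K) ∉ v.asIdeal →
    ∃ a' b' : E, (a' : Qb) = a v ∧ (b' : Qb) = b v ∧ ∀ Q, Over K v Q →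
      (∀ g ∈ K.fixingSubgroup, Acts Q g 1 → ρ g = 1) ∧
      ∀ g ∈ K.fixingSubgroup, Acts Q g (nm v) →
        (ρ g).charpoly = quadPoly (j a') (j b' * (nm v : PadicAlgCl l))

/-- MAIN STATEMENT: clause (i) of Q1 for the field `K`. For every `theta` there is a number field `E`
which contains the eigenvalues such that for every embedding `j` of `E` in the algebraic closure of
`ℚ_l`, `l` any prime, there is a continuous, absolutely irreducible two dimensional representation of
the Galois group of `K` with entries in the completion `Comp E l j` of `E` satisfying clause (i). -/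
def Conclusion (𝒦 : Facts K) : Prop :=
  ∀ θ : 𝒦.Eig, ∃ E : IntermediateField ℚ Qb, FiniteDimensional ℚ E ∧
    (∀ v, ¬ 𝒦.lev θ ≤ v.asIdeal → 𝒦.T θ v ∈ E ∧ 𝒦.S θ v ∈ E) ∧
    ∀ (l : ℕ) [Fact l.Prime] (j : E →+* PadicAlgCl l),
      ∃ ρ : GalK F → Matrix (Fin 2) (Fin 2) (PadicAlgCl l),
        (∀ g i k, ρ g i k ∈ Comp E l j) ∧ RepOn K.fixingSubgroup ρ ∧ IrrOn K.fixingSubgroup ρ ∧
        ClauseOne (𝒦.lev θ) (𝒦.T θ) (𝒦.S θ) l j ρ

end Pool.Agent.H51.QT
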