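import Pool.Agent.H51.QT.Base

/-!
# QT.Fro : clause (i) from the local information
-/

set_option autoImplicit false

open scoped Pointwise NumberField
open Matrix IsDedekindDomain Pool.Agent.H71.Patch Pool.Agent.H89.IP

namespace Pool.Agent.H51.QT

theorem trace_conj_gl {E : Type*} [Field E] (T g : GL (Fin 2) E) :
    (T * g * T⁻¹).val.trace = g.val.trace := by
  rw [Units.val_mul, Matrix.trace_mul_comm, Units.val_mul, ← mul_assoc, ← Units.val_mul,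
    inv_mul_cancel, Units.val_one, one_mul]

theorem det_conj_gl {E : Type*} [Field E] (T g : GL (Fin 2) E) :
    (T * g * T⁻¹).val.det = g.val.det := by
  rw [Units.val_mul, Units.val_mul, Matrix.det_mul, Matrix.det_mul, mul_comm, ← mul_assoc,
    ← Matrix.det_mul, ← Units.val_mul, inv_mul_cancel, Units.val_one, Matrix.det_one, one_mul]

theorem conj_one {E : Type*} [Field E] (T s : GL (Fin 2) E) (h : T * s * T⁻¹ = 1) : s = 1 := by
  rw [mul_inv_eq_one] at h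
  exact mul_eq_left.1 h

theorem two_det {E : Type*} [Field E] (M : Matrix (Fin 2) (Fin 2) E) :
    2 * M.det = M.trace ^ 2 - (M * M).trace := by
  rw [Matrix.det_fin_two, Matrix.trace_fin_two, Matrix.trace_fin_two, Matrix.mul_apply,
    Matrix.mul_apply, Fin.sum_univ_two, Fin.sum_univ_two]
  ring

variable {F : Type} [Field F] [NumberField F] {K : IntermediateField F (AlgebraicClosure F)}

/-- the hypotheses `hadm`, `hloc`, `hinv` are the modules BEX, LOC, DEG. -/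
theorem fro (𝒦 : Known K) (θ : 𝒦.Eig) {l : ℕ} [Fact l.Prime] (j : Qb →+* PadicAlgCl l)
    (hadm : ∀ v Q, Over K v Q → ¬ 𝒦.lev θ ≤ v.asIdeal →
      (∃ A : Adm K (𝒦.om θ), Split K A.L Q ∧
        ∀ g ∈ K.fixingSubgroup, Acts Q g 1 → g ∈ A.L.fixingSubgroup) ∧
      (∃ A : Adm K (𝒦.om θ), Split K A.L Q ∧ ∃ g ∈ GG K A.L, Acts Q g (nm v)))
    (hinv : ∀ v Q, Over K v Q → ∀ (n : ℕ) (g h : GalK F), Acts Q g n → Acts Q h n →
      Acts Q (g⁻¹ * h) 1)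
    (hmul : ∀ v Q, Over K v Q → ∀ (m n : ℕ) (g h : GalK F), Acts Q g m → Acts Q h n →
      Acts Q (g * h) (m * n))
    (r : ∀ A : Adm K (𝒦.om θ), GG K A.L →* GL (Fin 2) (PadicAlgCl l))
    (hloc : ∀ (A : Adm K (𝒦.om θ)) v Q, Over K v Q → ¬ 𝒦.lev θ ≤ v.asIdeal →
      (l : 𝓞 K) ∉ v.asIdeal → Split K A.L Q →
      (∀ (g : GG K A.L) (k : ℕ), Acts Q g (nm v ^ k) → (r A g).val.trace = j (𝒦.tr θ Q g)) ∧
        ∀ g : GG K A.L, Acts Q g 1 → r A g = 1)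
    (σ : K.fixingSubgroup →* GL (Fin 2) (PadicAlgCl l))
    (hσ : ∀ A : Adm K (𝒦.om θ), ∃ T : GL (Fin 2) (PadicAlgCl l), ∀ g : GG K A.L,
        r A g = T * σ ⟨g, g.2.1⟩ * T⁻¹) : Good 𝒦 θ j σ := by
  intro v Q hv hlev hl
  obtain ⟨⟨A, hsA, hA⟩, ⟨B, hsB, φ, hφ, hφa⟩⟩ := hadm v Q hv hlev
  have hin : ∀ g : K.fixingSubgroup, Acts Q g 1 → σ g = 1 := by
    intro g hg
    obtain ⟨T, hT⟩ := hσ A
    have h1 := (hloc A v Q hv hlev hl hsA).2 ⟨g, g.2, hA g g.2 hg⟩ hg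
    rw [hT] at h1
    exact conj_one _ _ h1
  refine ⟨hin, fun g hg => ?_⟩
  have h1 : σ g = σ ⟨φ, hφ.1⟩ := by
    have h3 : Acts Q (φ⁻¹ * (g : GalK F)) 1 := hinv v Q hv (nm v) φ g hφa hg
    have h4 : (((⟨φ, hφ.1⟩ : K.fixingSubgroup)⁻¹ * g : K.fixingSubgroup) : GalK F) =
        φ⁻¹ * (g : GalK F) := by
      rw [Subgroup.coe_mul, Subgroup.coe_inv]
    have h2 := hin ((⟨φ, hφ.1⟩ : K.fixingSubgroup)⁻¹ * g) (by rw [h4]; exact h3)
    rw [map_mul, map_inv, inv_mul_eq_one] at h2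
    exact h2.symm
  obtain ⟨T, hT⟩ := hσ B
  have hl1 := (hloc B v Q hv hlev hl hsB).1
  obtain ⟨x, y, -, -, hxy, hxy2, -, hgd⟩ := 𝒦.tr_good θ v hlev
  have e1 : (σ ⟨φ, hφ.1⟩).val.trace = j (x + y) := by
    have h2 := hl1 ⟨φ, hφ⟩ 1 (by rw [pow_one]; exact hφa)
    rw [hT, trace_conj_gl] at h2
    have h3 : 𝒦.tr θ Q φ = x + y := by
      have := (hgd Q hv φ hφ.1 1 (by rw [pow_one]; exact hφa)).1
      rwa [pow_one, pow_one] at this
    rw [← h3]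
    exact h2
  have e2 : (σ ⟨φ * φ, mul_mem hφ.1 hφ.1⟩).val.trace = j (x ^ 2 + y ^ 2) := by
    have hact : Acts Q (φ * φ) (nm v ^ 2) := by
      rw [pow_two]
      exact hmul v Q hv _ _ φ φ hφa hφa
    have h2 := hl1 ⟨φ * φ, mul_mem hφ hφ⟩ 2 hact
    rw [hT, trace_conj_gl] at h2
    have h3 : 𝒦.tr θ Q (φ * φ) = x ^ 2 + y ^ 2 :=
      (hgd Q hv (φ * φ) (mul_mem hφ.1 hφ.1) 2 hact).1
    rw [← h3]
    exact h2
  have e3 : (σ ⟨φ * φ, mul_mem hφ.1 hφ.1⟩).val = (σ ⟨φ, hφ.1⟩).val * (σ ⟨φ, hφ.1⟩).val := by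
    rw [← Units.val_mul, ← map_mul]
    rfl
  rw [e3] at e2
  have e4 : (σ ⟨φ, hφ.1⟩).val.det = j (x * y) := by
    have h2 := two_det (σ ⟨φ, hφ.1⟩).val
    rw [e1, e2, ← map_pow, ← map_sub] at h2
    have h3 : (x + y) ^ 2 - (x ^ 2 + y ^ 2) = 2 * (x * y) := by ring
    rw [h3, map_mul, map_ofNat] at h2
    exact mul_left_cancel₀ two_ne_zero h2
  rw [h1, e1, e4, hxy, hxy2]
  exact ⟨rfl, rfl⟩

end Pool.Agent.H51.QT
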