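import Pool.Agent.H51.QT.Irr
import Pool.Agent.H51.QT.Fro
import Pool.Agent.H89.QT.PatK
import Pool.Agent.H71.QT.LocV3
import Pool.Agent.H19.QT.GluK
import Pool.Agent.H19.QT.Adm
import Pool.Agent.H19.QT.TameW

/-!
# QT.FinRep : the representation over the algebraic closure of `ℚ_l`
-/

set_option autoImplicit false

open scoped Pointwise NumberField
open Matrix IsDedekindDomain Pool.Agent.H71.Patch Pool.Agent.H89.IP

namespace Pool.Agent.H51.QT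

variable {F : Type} [Field F] [NumberField F] {K : IntermediateField F (AlgebraicClosure F)}

/-- module LOC, without hypotheses -/
theorem loc (𝒦 : Known K) {θ : 𝒦.Eig} (A : Adm K (𝒦.om θ)) {l : ℕ} [Fact l.Prime]
    (j : Qb →+* PadicAlgCl l) {ρ : GG K A.L →* GL (Fin 2) (PadicAlgCl l)} (hρ : IsPat 𝒦 A j ρ)
    {v : HeightOneSpectrum (𝓞 K)} {Q : Ideal (Zbar F)} (hv : Over K v Q)
    (hlev : ¬ 𝒦.lev θ ≤ v.asIdeal) (hl : (l : 𝓞 K) ∉ v.asIdeal) (hs : Split K A.L Q) :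
    (∀ (g : GG K A.L) (k : ℕ), Acts Q g (nm v ^ k) → (ρ g).val.trace = j (𝒦.tr θ Q g)) ∧
      ∀ g : GG K A.L, Acts Q g 1 → ρ g = 1 := by
  have : FiniteDimensional F K := Module.finite_of_finrank_pos (by rw [𝒦.deg]; norm_num)
  obtain ⟨u, hu⟩ := Pool.Agent.H19.QT.above_exists hv
  exact Pool.Agent.H71.QT.loc3_of 𝒦 A j hρ hv hlev hl hs
    fun i φ q hi hφ => Pool.Agent.H19.QT.tame_wild hu hi hφ

/-- the representation over the algebraic closure of `ℚ_l` -/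
theorem rep (𝒦 : Known K) (θ : 𝒦.Eig) {l : ℕ} [Fact l.Prime] (j : Qb →+* PadicAlgCl l) :
    ∃ σ : K.fixingSubgroup →* GL (Fin 2) (PadicAlgCl l), Continuous σ ∧ Good 𝒦 θ j σ ∧
      Irred σ := by
  choose r hr using fun A => Pool.Agent.H89.QT.pat 𝒦 θ A l j
  obtain ⟨σ, hσc, hσ⟩ := Pool.Agent.H19.QT.glu_of 𝒦 θ j (𝒦.adm_pos θ) r hr
    fun A _ _ hv hlev hl hs => (loc 𝒦 A j (hr A) hv hlev hl hs).1
  have hg : Good 𝒦 θ j σ := fro 𝒦 θ j (𝒦.adm_loc θ)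
    (fun v Q hv n g h h1 h2 => Pool.Agent.H19.QT.acts_inv_mul hv.1 h1 h2)
    (fun v Q hv m n g h h1 h2 => Pool.Agent.H19.QT.acts_mul hv.1 h1 h2) r
    (fun A _ _ hv hlev hl hs => loc 𝒦 A j (hr A) hv hlev hl hs) σ hσ
  exact ⟨σ, hσc, hg, irr 𝒦 θ j σ hσc hg⟩

end Pool.Agent.H51.QT
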