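import Pool.Agent.H51.QT.Core

/-!
# Weight two eigenclasses over quadratic extensions of totally real fields: the published facts

`F` is a totally real number field, `K` a quadratic extension of `F` in an algebraic closure `Fbar`,
`Gam = GalK F` the absolute Galois group of `F`; the absolute Galois group of a finite extension `E`
of `F` in `Fbar` is the subgroup `E.fixingSubgroup`. Places are given by the prime ideals `Q` of the
ring `Zbar F` of all algebraic integers. All eigenvalues are algebraic numbers.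
-/

set_option autoImplicit false

open scoped Pointwise NumberField
open Matrix IsDedekindDomain Pool.Agent.H71.Patch

namespace Pool.Agent.H51.QT

variable {F : Type} [Field F] [NumberField F]

variable (K : IntermediateField F (AlgebraicClosure F))

/-- The absolute Galois group of the compositum `K' = K L`. -/
noncomputable abbrev GG (L : IntermediateField F (AlgebraicClosure F)) : Subgroup (GalK F) :=
  K.fixingSubgroup ⊓ L.fixingSubgroup

/-- The prime of `L` below `Q` splits in `K L`: the decomposition group of `Q` over `L` is contained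
in the Galois group of `K L`. -/
def Split (L : IntermediateField F (AlgebraicClosure F)) (Q : Ideal (Zbar F)) : Prop :=
  ∀ g ∈ L.fixingSubgroup, g ∈ Dec Q → g ∈ K.fixingSubgroup

/-- An admissible base change for the character `om` of finite order of the Galois group of `K`:
a totally real quadratic extension `L ≠ K` of `F` and a character `eta` of finite order of the Galois
group of `K L` with `eta ^ 2 = om`. -/
structure Adm (om : K.fixingSubgroup →* Qbˣ) where
  L : IntermediateField F (AlgebraicClosure F)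
  deg : Module.finrank F L = 2
  real : NumberField.IsTotallyReal L
  ne : L ≠ K
  eta : GG K L →* Qbˣ
  eta_open : IsOpen (eta.ker : Set (GG K L))
  eta_sq : ∀ g : GG K L, eta g ^ 2 = om ⟨g, g.2.1⟩

/-- The expected trace over `K L` at `Q`: the Langlands parameter (trace function `t`) twisted by
`eta⁻¹ chi`. -/
noncomputable def tw {om : K.fixingSubgroup →* Qbˣ} (A : Adm K om)
    (t : Ideal (Zbar F) → GalK F → Qb) {l : ℕ} [Fact l.Prime] (j : Qb →+* PadicAlgCl l)
    (χ : GG K A.L →* (PadicAlgCl l)ˣ) (Q : Ideal (Zbar F)) (g : GG K A.L) : PadicAlgCl l :=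
  ((χ g : (PadicAlgCl l)ˣ) : PadicAlgCl l) * j ((A.eta g)⁻¹ : Qbˣ) * j (t Q g)

/-- The data attached to the weight two eigenclasses of `GL_2` over `K`. -/
structure Data where
  /-- pairs of a non zero ideal `n` of `𝓞 K` and a nontrivial character `theta` of the Hecke algebra
  `T_1(n)` acting on `H^d(Y_1(n), ℂ)`. They are the systems of eigenvalues of the cuspidal
  automorphic representations `pi` of `GL_2` over `K` of weight two (trivial infinitesimal character,
  central character `om` of finite order), of level dividing `n` (MATSUSHIMA, HARDER, FRANKE: the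
  Eisenstein and the residual part of this cohomology give trivial characters only). -/
  Eig : Type
  /-- the ideal `n` -/
  lev : Eig → Ideal (𝓞 K)
  /-- the eigenvalue `theta (T_v)`, `v` prime to `n` -/
  T : Eig → HeightOneSpectrum (𝓞 K) → Qb
  /-- the eigenvalue `theta (S_v)`, `v` prime to `n` -/
  S : Eig → HeightOneSpectrum (𝓞 K) → Qb
  /-- the central character as a character of the Galois group (class field theory) -/
  om : Eig → K.fixingSubgroup →* Qbˣ
  /-- the finite primes `w` of `K` with `om_w (-1) = -1` -/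
  odd : Eig → Set (HeightOneSpectrum (𝓞 K))
  /-- `tr theta Q` is the trace of the (semisimplified) Langlands parameter of `pi_v` on the Weil group
  of `K_v` in the decomposition group of `Q`, `v` the prime of `K` below `Q` (LANGLANDS, HENNIART,
  KUTZKO, normalised so that the Frobenius polynomial at good places is that of `Frob`), extended
  by `0`. -/
  tr : Eig → Ideal (Zbar F) → GalK F → Qb

variable {K}

/-- The eigenvalues of `T_v` and `S_v`, `v` prime to `n`, generate a number field. -/
def Coef (𝒟 : Data K) : Prop :=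
  ∀ θ, ∃ E : IntermediateField ℚ Qb, FiniteDimensional ℚ E ∧
    ∀ v, ¬ 𝒟.lev θ ≤ v.asIdeal → 𝒟.T θ v ∈ E ∧ 𝒟.S θ v ∈ E

/-- The central character has finite order, is unramified at the primes prime to `n`, and has there
the value `theta (S_v)` at Frobenius elements; primes with `om_w (-1) = -1` divide `n`. -/
def Central (𝒟 : Data K) : Prop :=
  (∀ θ, IsOpen ((𝒟.om θ).ker : Set K.fixingSubgroup)) ∧
  (∀ θ v Q, Over K v Q → ¬ 𝒟.lev θ ≤ v.asIdeal → ∀ g : K.fixingSubgroup,
    Acts Q g (nm v) → (𝒟.om θ g : Qb) = 𝒟.S θ v) ∧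
  ∀ θ, ∀ w ∈ 𝒟.odd θ, 𝒟.lev θ ≤ w.asIdeal

/-- CLASS FIELD THEORY (GRUNWALD-WANG for the exponent two, TATE): a character of finite order of the
idele classes is a square if and only if all its components are trivial at `-1`. The components of
`om` at infinity are trivial, so `om` becomes a square over `K L` as soon as `K L / K` does not
split at the primes in `odd theta`, that is if the decomposition groups at these primes are not
contained in the Galois group of `L`. -/
def Tate (𝒟 : Data K) : Prop :=
  ∀ θ (L : IntermediateField F (AlgebraicClosure F)), Module.finrank F L = 2 →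
    NumberField.IsTotallyReal L → L ≠ K →
    (∀ w ∈ 𝒟.odd θ, ∀ Q, Over K w Q →
      ∃ g ∈ K.fixingSubgroup, g ∈ Dec Q ∧ g ∉ L.fixingSubgroup) →
    ∃ eta : GG K L →* Qbˣ, IsOpen (eta.ker : Set (GG K L)) ∧
      ∀ g : GG K L, eta g ^ 2 = 𝒟.om θ ⟨g, g.2.1⟩

/-- The local parameters at different `Q` over the same prime of `K` are conjugate. -/
def TrConj (𝒟 : Data K) : Prop :=
  ∀ θ Q g, ∀ h ∈ K.fixingSubgroup, 𝒟.tr θ (h • Q) (h * g * h⁻¹) = 𝒟.tr θ Q g

/-- Unramified places: `x` and `y` are the roots of the Frobenius polynomial; JACQUET-SHALIKA: their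
quotient has absolute value strictly between `1 / Nv` and `Nv`. -/
def Frob (𝒟 : Data K) : Prop :=
  ∀ θ v, ¬ 𝒟.lev θ ≤ v.asIdeal → ∃ x y : Qb, x ≠ 0 ∧ y ≠ 0 ∧ x + y = 𝒟.T θ v ∧
    x * y = 𝒟.S θ v * (nm v : Qb) ∧
    (∀ m : ℕ, 0 < m → x ^ m ≠ ((nm v : Qb) * y) ^ m ∧ y ^ m ≠ ((nm v : Qb) * x) ^ m) ∧
    ∀ Q, Over K v Q → ∀ g ∈ K.fixingSubgroup, ∀ k : ℕ, Acts Q g (nm v ^ k) →
      𝒟.tr θ Q g = x ^ k + y ^ k ∧ 𝒟.tr θ Q g⁻¹ = x⁻¹ ^ k + y⁻¹ ^ k

/-- A cuspidal representation does not have the eigenvalues of a sum of two `l`-adic characters: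
the sum would be rational over a number field in the sense of SERRE, so locally algebraic
(WALDSCHMIDT, HENNIART 1982), that is given by two algebraic Hecke characters, against
JACQUET-SHALIKA (isobaric representations are determined by almost all components). -/
def NoSum (𝒟 : Data K) : Prop :=
  ∀ θ (l : ℕ) [Fact l.Prime] (j : Qb →+* PadicAlgCl l),
    ¬ ∃ ψ₁ ψ₂ : K.fixingSubgroup →* (PadicAlgCl l)ˣ, Continuous ψ₁ ∧ Continuous ψ₂ ∧
      ∀ v Q, Over K v Q → ¬ 𝒟.lev θ ≤ v.asIdeal → (l : 𝓞 K) ∉ v.asIdeal →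
        ∀ g : K.fixingSubgroup, Acts Q g (nm v) →
        j (𝒟.T θ v) = (ψ₁ g : PadicAlgCl l) + (ψ₂ g : PadicAlgCl l) ∧
        j (𝒟.S θ v * (nm v : Qb)) = (ψ₁ g : PadicAlgCl l) * (ψ₂ g : PadicAlgCl l)

/-- The representation `R` of the Galois group of `L` is induced from the Galois group of `K L`, with
the local parameters of `pi` twisted by `eta⁻¹ chi`, at all places of `L` prime to `l`. -/
def Ind {om : K.fixingSubgroup →* Qbˣ} (A : Adm K om) (t : Ideal (Zbar F) → GalK F → Qb) {l : ℕ}
    [Fact l.Prime] (j : Qb →+* PadicAlgCl l) (χ : GG K A.L →* (PadicAlgCl l)ˣ)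
    (R : A.L.fixingSubgroup →* GL (Fin 4) (PadicAlgCl l)) : Prop :=
  ∀ (u : HeightOneSpectrum (𝓞 F)) (Q : Ideal (Zbar F)), Above u Q → (l : 𝓞 F) ∉ u.asIdeal →
    ∀ g : A.L.fixingSubgroup, Weil u Q g →
      ((g : GalK F) ∉ K.fixingSubgroup → (R g).val.trace = 0) ∧
      ∀ (c : GalK F) (h₁ : (g : GalK F) ∈ GG K A.L) (h₂ : c⁻¹ * (g : GalK F) * c ∈ GG K A.L),
        c ∈ A.L.fixingSubgroup → c ∉ K.fixingSubgroup →
        (R g).val.trace = tw K A t j χ Q ⟨g, h₁⟩ + tw K A t j χ (c⁻¹ • Q) ⟨_, h₂⟩

/-- THE GALOIS REPRESENTATIONS. Let `pi'` be the base change of `pi` to `K L` twisted by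
`eta⁻¹ chi`; its central character is trivial. Its automorphic induction to `GL_4` over the totally
real field `L` (ARTHUR-CLOZEL) is of symplectic type with trivial multiplier, with parameter
`D_2 + D_2` at all infinite places; it comes from a cuspidal representation of `PGSp_4 = SO_5` over
`L` of weight two, a holomorphic limit of discrete series at all infinite places (GAN-TAKEDA,
ARTHUR, GEE-TAIBI), which has Galois representations, compatible with the local Langlands
correspondence up to semisimplification at all places prime to `l` (MOK 2014;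
BOXER-CALEGARI-GEE-PILLONI 2.7). If the automorphic induction is not cuspidal, `pi'` is the base
change of a Hilbert modular form of parallel weight two (CARAYOL, TAYLOR, BLASIUS-ROGAWSKI) or a
sum of two algebraic Hecke characters of `K L`. -/
def Gal4 (𝒟 : Data K) : Prop :=
  ∀ θ (A : Adm K (𝒟.om θ)) (l : ℕ) [Fact l.Prime] (j : Qb →+* PadicAlgCl l)
    (χ : GG K A.L →* (PadicAlgCl l)ˣ), Continuous χ → χ ^ 2 = 1 →
    ∃ R : A.L.fixingSubgroup →* GL (Fin 4) (PadicAlgCl l), Continuous R ∧ Ind A (𝒟.tr θ) j χ R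

variable (K)

/-- THE PUBLISHED FACTS for the quadratic extension `K` of the totally real field `F`. -/
structure Known extends Data K where
  /-- `F` is totally real. -/
  base : NumberField.IsTotallyReal F
  /-- `K` is a quadratic extension of `F` (of any signature). -/
  deg : Module.finrank F K = 2
  lev_ne : ∀ θ, lev θ ≠ ⊥
  coef : Coef toData
  central : Central toData
  tate : Tate toData
  tr_conj : TrConj toData
  tr_good : Frob toData
  irr : NoSum toData
  gal : Gal4 toData

variable {K} in
theorem Known.om_open (𝒦 : Known K) (θ : 𝒦.Eig) : IsOpen ((𝒦.om θ).ker : Set K.fixingSubgroup) :=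
  𝒦.central.1 θ

variable {K} in
theorem Known.odd_lev (𝒦 : Known K) (θ : 𝒦.Eig) (w : HeightOneSpectrum (𝓞 K))
    (hw : w ∈ 𝒦.odd θ) : 𝒦.lev θ ≤ w.asIdeal :=
  𝒦.central.2.2 θ w hw

/-- The element of the completion given by an element of `E`. -/
noncomputable def toComp (E : IntermediateField ℚ Qb) (l : ℕ) [Fact l.Prime]
    (j : E →+* PadicAlgCl l) (x : E) : Comp E l j :=
  ⟨j x, IntermediateField.subset_adjoin _ _ ⟨x, rfl⟩⟩

/-- Clause (i) for the representation `ρ` over the completion of `E`, for the level `n` and the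
eigenvalues `a`, `b`: for every prime `v` of `K` not dividing `n l`, `ρ` is unramified at `v` and all
Frobenius elements have characteristic polynomial `X ^ 2 - a_v X + b_v Nv`. -/
def ClauseI (n : Ideal (𝓞 K)) (E : IntermediateField ℚ Qb)
    (a b : ∀ v : HeightOneSpectrum (𝓞 K), ¬ n ≤ v.asIdeal → E) (l : ℕ) [Fact l.Prime]
    (j : E →+* PadicAlgCl l) (ρ : K.fixingSubgroup →* GL (Fin 2) (Comp E l j)) : Prop :=
  ∀ (v : HeightOneSpectrum (𝓞 K)) (hv : ¬ n ≤ v.asIdeal), (l : 𝓞 K) ∉ v.asIdeal →
    ∀ Q, Over K v Q →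
      (∀ g : K.fixingSubgroup, Acts Q g 1 → ρ g = 1) ∧
      ∀ g : K.fixingSubgroup, Acts Q g (nm v) → (ρ g).val.charpoly =
        Polynomial.X ^ 2 - Polynomial.C (toComp E l j (a v hv)) * Polynomial.X +
          Polynomial.C (toComp E l j (b v hv) * (nm v : Comp E l j))

/-- MAIN STATEMENT: clause (i) of Q1 for the field `K`. -/
def Statement (𝒦 : Known K) : Prop :=
  ∀ θ : 𝒦.Eig, ∃ E : IntermediateField ℚ Qb, FiniteDimensional ℚ E ∧
    ∃ hE : ∀ v, ¬ 𝒦.lev θ ≤ v.asIdeal → 𝒦.T θ v ∈ E ∧ 𝒦.S θ v ∈ E,
    ∀ (l : ℕ) [Fact l.Prime] (j : E →+* PadicAlgCl l),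
      ∃ ρ : K.fixingSubgroup →* GL (Fin 2) (Comp E l j), Continuous ρ ∧ Irred ρ ∧
        ClauseI K (𝒦.lev θ) E (fun v hv => ⟨𝒦.T θ v, (hE v hv).1⟩)
          (fun v hv => ⟨𝒦.S θ v, (hE v hv).2⟩) l j ρ

end Pool.Agent.H51.QT
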