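import Pool.Agent.H51.QT.Base

/-!
# QT.Irr : the representation is irreducible
-/

set_option autoImplicit false

open scoped Pointwise NumberField
open Matrix IsDedekindDomain Pool.Agent.H71.Patch Pool.Agent.H89.IP

namespace Pool.Agent.H51.QT

section abstract

variable {Γ E : Type*} [Group Γ] [Field E]

/-- a reducible two dimensional representation is triangular in a suitable basis -/
theorem exists_tri (σ : Γ →* GL (Fin 2) E) (h : ¬ Irred σ) :
    ∃ T : GL (Fin 2) E, ∀ g, (T⁻¹ * σ g * T).val 1 0 = 0 := by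
  have h1 : ∃ W : Submodule E (Fin 2 → E), (∀ g : Γ, ∀ x ∈ W, (σ g).val *ᵥ x ∈ W) ∧
      W ≠ ⊥ ∧ W ≠ ⊤ := by
    by_contra hc
    refine h ⟨two_ne_zero, fun W hW => ?_⟩
    by_contra hc2
    rw [not_or] at hc2
    exact hc ⟨W, hW, hc2.1, hc2.2⟩
  obtain ⟨W, hW, hb, ht⟩ := h1
  obtain ⟨v, hv, hv0⟩ := (Submodule.ne_bot_iff W).1 hb
  obtain ⟨w, -, hw⟩ := SetLike.exists_of_lt (lt_top_iff_ne_top.2 ht)
  have hdet : v 0 * w 1 - w 0 * v 1 ≠ 0 := by
    intro h0
    apply hw
    by_cases h2 : v 0 = 0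
    · have h3 : v 1 ≠ 0 := by
        intro h4
        apply hv0
        ext i
        fin_cases i
        · exact h2
        · exact h4
      have h5 : w 0 = 0 := by
        rw [h2, zero_mul, zero_sub, neg_eq_zero] at h0
        exact (mul_eq_zero.1 h0).resolve_right h3
      have h6 : w = (w 1 / v 1) • v := by
        ext i
        fin_cases i
        · show w 0 = (w 1 / v 1) * v 0
          rw [h5, h2, mul_zero]
        · show w 1 = (w 1 / v 1) * v 1
          rw [div_mul_cancel₀ _ h3]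
      rw [h6]
      exact W.smul_mem _ hv
    · have h6 : w = (w 0 / v 0) • v := by
        ext i
        fin_cases i
        · show w 0 = (w 0 / v 0) * v 0
          rw [div_mul_cancel₀ _ h2]
        · show w 1 = (w 0 / v 0) * v 1
          have h7 : v 0 * w 1 = w 0 * v 1 := sub_eq_zero.1 h0
          field_simp
          linear_combination h7
      rw [h6]
      exact W.smul_mem _ hv
  obtain ⟨T, hT⟩ : ∃ T : GL (Fin 2) E, T.val = !![v 0, w 0; v 1, w 1] := by
    refine ⟨Matrix.GeneralLinearGroup.mkOfDetNeZero !![v 0, w 0; v 1, w 1] ?_, rfl⟩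
    rw [Matrix.det_fin_two_of]
    exact hdet
  have hTv : ∀ x : Fin 2 → E, T.val *ᵥ x = x 0 • v + x 1 • w := by
    intro x
    rw [hT]
    ext i
    fin_cases i <;> simp [Matrix.mulVec, dotProduct, Fin.sum_univ_two] <;> ring
  refine ⟨T, fun g => ?_⟩
  have h2 := hW g v hv
  obtain ⟨x, hx⟩ : ∃ x : Fin 2 → E, T.val *ᵥ x = (σ g).val *ᵥ v := by
    refine ⟨(T⁻¹ : GL (Fin 2) E).val *ᵥ ((σ g).val *ᵥ v), ?_⟩
    rw [Matrix.mulVec_mulVec, ← Units.val_mul, mul_inv_cancel, Units.val_one, Matrix.one_mulVec]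
  have h3 : x 1 = 0 := by
    by_contra hne
    apply hw
    have h4 : x 1 • w ∈ W := by
      have h5 : x 1 • w = (σ g).val *ᵥ v - x 0 • v := by
        rw [← hx, hTv]
        abel
      rw [h5]
      exact W.sub_mem h2 (W.smul_mem _ hv)
    exact (W.smul_mem_iff hne).1 h4
  have h4 : (T⁻¹ * σ g * T).val *ᵥ ![1, 0] = x := by
    rw [Units.val_mul, Units.val_mul, ← Matrix.mulVec_mulVec, ← Matrix.mulVec_mulVec, hTv]
    have h5 : (![1, 0] : Fin 2 → E) 0 • v + (![1, 0] : Fin 2 → E) 1 • w = v := by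
      simp
    rw [h5, ← hx, Matrix.mulVec_mulVec, ← Units.val_mul, inv_mul_cancel, Units.val_one,
      Matrix.one_mulVec]
  have h5 := congrFun h4 1
  rw [h3] at h5
  simpa [Matrix.mulVec, dotProduct, Fin.sum_univ_two] using h5

/-- the diagonal characters of a triangular representation -/
theorem exists_chars (τ : Γ →* GL (Fin 2) E) (h : ∀ g, (τ g).val 1 0 = 0) :
    ∃ ψ₁ ψ₂ : Γ →* Eˣ, ∀ g, (ψ₁ g : E) = (τ g).val 0 0 ∧ (ψ₂ g : E) = (τ g).val 1 1 := by
  let f₁ : Γ →* E :=
    { toFun := fun g => (τ g).val 0 0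
      map_one' := by rw [map_one, Units.val_one, Matrix.one_apply_eq]
      map_mul' := fun a b => by
        rw [map_mul, Units.val_mul, Matrix.mul_apply, Fin.sum_univ_two, h b, mul_zero, add_zero] }
  let f₂ : Γ →* E :=
    { toFun := fun g => (τ g).val 1 1
      map_one' := by rw [map_one, Units.val_one, Matrix.one_apply_eq]
      map_mul' := fun a b => by
        rw [map_mul, Units.val_mul, Matrix.mul_apply, Fin.sum_univ_two, h a, zero_mul, zero_add] }
  exact ⟨f₁.toHomUnits, f₂.toHomUnits, fun g => ⟨rfl, rfl⟩⟩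

theorem continuous_char [TopologicalSpace Γ] [IsTopologicalGroup Γ] [TopologicalSpace E]
    (ψ : Γ →* Eˣ) (h : Continuous fun g => (ψ g : E)) : Continuous ψ := by
  rw [Units.continuous_iff]
  refine ⟨h, ?_⟩
  have h1 : (fun g => ((ψ g)⁻¹ : Eˣ).val) = (fun g => (ψ g : E)) ∘ fun g => g⁻¹ := by
    ext g
    rw [Function.comp_apply, map_inv]
  show Continuous fun g => ((ψ g)⁻¹ : Eˣ).val
  rw [h1]
  exact h.comp continuous_inv

end abstract

variable {F : Type} [Field F] [NumberField F] {K : IntermediateField F (AlgebraicClosure F)}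

theorem irr (𝒦 : Known K) (θ : 𝒦.Eig) {l : ℕ} [Fact l.Prime] (j : Qb →+* PadicAlgCl l)
    (σ : K.fixingSubgroup →* GL (Fin 2) (PadicAlgCl l)) (hc : Continuous σ)
    (hσ : Good 𝒦 θ j σ) : Irred σ := by
  by_contra hir
  obtain ⟨T, hT⟩ := exists_tri σ hir
  let τ : K.fixingSubgroup →* GL (Fin 2) (PadicAlgCl l) :=
    { toFun := fun g => T⁻¹ * σ g * T
      map_one' := by rw [map_one, mul_one, inv_mul_cancel]
      map_mul' := fun a b => by
        rw [map_mul]
        group }
  have hτ : ∀ g, τ g = T⁻¹ * σ g * T := fun _ => rfl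
  have hτc : Continuous τ := (continuous_const.mul hc).mul continuous_const
  obtain ⟨ψ₁, ψ₂, hψ⟩ := exists_chars τ hT
  have hval : Continuous fun g => (τ g).val := Units.continuous_val.comp hτc
  have htr : ∀ g, (σ g).val.trace = (ψ₁ g : PadicAlgCl l) + (ψ₂ g : PadicAlgCl l) := by
    intro g
    have h1 : (τ g).val.trace = (σ g).val.trace := by
      rw [hτ, Units.val_mul, Units.val_mul, Matrix.trace_mul_comm, ← mul_assoc, ← Units.val_mul,
        mul_inv_cancel, Units.val_one, one_mul]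
    rw [← h1, Matrix.trace_fin_two, (hψ g).1, (hψ g).2]
  have hdet : ∀ g, (σ g).val.det = (ψ₁ g : PadicAlgCl l) * (ψ₂ g : PadicAlgCl l) := by
    intro g
    have h1 : (τ g).val.det = (σ g).val.det := by
      rw [hτ, Units.val_mul, Units.val_mul, Matrix.det_mul, Matrix.det_mul, mul_comm, ← mul_assoc,
        ← Matrix.det_mul, ← Units.val_mul, mul_inv_cancel, Units.val_one, Matrix.det_one, one_mul]
    have h2 : (τ g).val 1 0 = 0 := hT g
    rw [← h1, Matrix.det_fin_two, h2, mul_zero, sub_zero, (hψ g).1, (hψ g).2]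
  refine 𝒦.irr θ l j ⟨ψ₁, ψ₂, continuous_char ψ₁ ?_, continuous_char ψ₂ ?_, ?_⟩
  · have h1 : (fun g => (ψ₁ g : PadicAlgCl l)) = fun g => (τ g).val 0 0 :=
      funext fun g => (hψ g).1
    rw [h1]
    exact hval.matrix_elem 0 0
  · have h1 : (fun g => (ψ₂ g : PadicAlgCl l)) = fun g => (τ g).val 1 1 :=
      funext fun g => (hψ g).2
    rw [h1]
    exact hval.matrix_elem 1 1
  · intro v Q hv hlev hl g hg
    have h1 := (hσ v Q hv hlev hl).2 g hg
    rw [← htr, ← hdet]
    exact ⟨h1.1.symm, h1.2.symm⟩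

end Pool.Agent.H51.QT
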