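import Pool.Agent.H51.QT.VQ
import Pool.Agent.H19.QT.Tame
import Pool.Agent.H71.QT.MonB

/-!
# QT.Mono : an `l`-adic representation with unramified trace is unramified

No monodromy theorem is used.
-/

set_option autoImplicit false

open scoped Pointwise NumberField
open Matrix IsDedekindDomain Pool.Agent.H71.Patch

namespace Pool.Agent.H51.QT

variable {F : Type} [Field F] [NumberField F]

theorem wild_of_PQ {Q : Ideal (Zbar F)} {g : GalK F} (h : g ∈ Pool.Agent.H19.QT.PQ Q) :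
    Wild Q g := by
  intro z hz
  obtain ⟨a, d, hd, had, e⟩ := h.2 z hz
  refine ⟨a - d, d, hd, had, ?_⟩
  push_cast
  rw [← e]
  ring

theorem nat_mem_iff {K : IntermediateField F (AlgebraicClosure F)} {v : HeightOneSpectrum (𝓞 K)}
    {Q : Ideal (Zbar F)} (hv : Over K v Q) (l : ℕ) : (l : Zbar F) ∈ Q ↔ (l : 𝓞 K) ∈ v.asIdeal := by
  rw [← hv.2, below, Ideal.mem_comap, map_natCast]

theorem mono {K : IntermediateField F (AlgebraicClosure F)} [FiniteDimensional F K] (l : ℕ)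
    [Fact l.Prime] (H : Subgroup (GalK F)) (hH : IsOpen (H : Set (GalK F)))
    (ρ : H →* GL (Fin 2) (PadicAlgCl l)) (hc : Continuous ρ)
    {v : HeightOneSpectrum (𝓞 K)} {Q : Ideal (Zbar F)} (hv : Over K v Q)
    (hl : (l : 𝓞 K) ∉ v.asIdeal) (x y : PadicAlgCl l)
    (hxy : ∀ m : ℕ, 0 < m → x ^ m ≠ ((nm v : PadicAlgCl l) * y) ^ m ∧
      y ^ m ≠ ((nm v : PadicAlgCl l) * x) ^ m)
    (htr : ∀ (g : H) (k : ℕ), Acts Q g (nm v ^ k) → (ρ g).val.trace = x ^ k + y ^ k) :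
    ∀ g : H, Acts Q g 1 → ρ g = 1 := by
  obtain ⟨u, hu⟩ := Pool.Agent.H19.QT.above_exists hv
  refine Pool.Agent.H71.QT.mono_of l H hH ρ hc hv x y hxy htr (Wild Q) ?_ ?_
  · intro g hg M hM hMg
    exact wild_pow hv.1 hg (Fact.out : l.Prime) (fun h => hl ((nat_mem_iff hv l).1 h)) M
  · intro i φ q hi hφ
    exact wild_of_PQ (Pool.Agent.H19.QT.tame hu hi hφ)

end Pool.Agent.H51.QT
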